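import Pool.Agent.Lib_helper90.Chrom.NCPiece
import Pool.Agent.Lib_helper88.Chrom.Edge
import Pool.Agent.Lib_helper88.Chrom.Quot
import Pool.Agent.Lib_helper46.Chrom.NSDefs

/-!
# Definitions and statements for MP_fabb84_co (S12543), sections 2, 3, 4 of note 1214 (helper46)

`Root`, `Mem`, `AllCrossed`, `AllCoupled` are in `Lib_helper46/Chrom/Cross2.lean`, the never-stuck
theorem `StmtNS` in `Lib_helper46/Chrom/NSDefs.lean`; the clique cuts are in
`Lib_helper7/Chrom/{Sep,SepNC}.lean`.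

Every `StmtX` is a `Prop`; each module proves one of them as a theorem `stmtX : StmtX`.
-/

open Finset

namespace Pool.Agent.Chrom

set_option linter.unusedSectionVars false

section defs

variable {V : Type*} [Fintype V] [DecidableEq V]

/-- class STAR: the tight minimal nonfaces are minimal tight sets -/
def Star (A : Finset V → Prop) : Prop :=
  ∀ f, MinNF A f → 3 ≤ f.card → cc (gr A) f = 0 → ∀ X, X ⊂ f → 2 ≤ X.card → cc (gr A) X < 0

/-- no proper subset with at least two elements is tight -/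
def MinT (G : SimpleGraph V) (T : Finset V) : Prop :=
  ∀ X, X ⊂ T → 2 ≤ X.card → cc G X < 0

/-- no cut with at most two vertices -/
def ThreeConn (G : SimpleGraph V) : Prop := ∀ S : Finset V, S.card ≤ 2 → kk G S = 1

/-- number of (ordered) edges which are not 2-cuts -/
noncomputable def mu (A : Finset V → Prop) : ℕ :=
  Nat.card {p : V × V // (gr A).Adj p.1 p.2 ∧ kk (gr A) {p.1, p.2} = 1}

/-- number of faces -/
noncomputable def nf (A : Finset V → Prop) : ℕ := Nat.card {S : Finset V // A S}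

/-- `G - uv` -/
def delE (G : SimpleGraph V) (u v : V) : SimpleGraph V where
  Adj x y := G.Adj x y ∧ ¬ ((x = u ∧ y = v) ∨ (x = v ∧ y = u))
  symm := ⟨fun _ _ h => ⟨h.1.symm, fun h' => h.2 (by tauto)⟩⟩
  loopless := ⟨fun _ h => h.1.ne rfl⟩

/-- the family `Δ'` of move 2.3: add the sets `S ∋ u, v` with `S - u`, `S - v` faces and
`c_{G - uv}(S') ≤ -1` for all `S' ⊆ S` with `u, v ∈ S'` -/
def ext (A : Finset V → Prop) (u v : V) : Finset V → Prop := fun S =>
  A S ∨ (u ∈ S ∧ v ∈ S ∧ A (S.erase u) ∧ A (S.erase v) ∧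
    ∀ S' ⊆ S, u ∈ S' → v ∈ S' → cc (delE (gr A) u v) S' ≤ -1)

end defs

/-! ## 2.1 alpha-move -/

/-- no bad spread at a minimal tight face in STAR -/
def StmtStarSplits : Prop := ∀ (V : Type) [Fintype V] [DecidableEq V] (A : Finset V → Prop)
  (T : Finset V), NC A → Star A → Tight A T → MinT (gr A) T → ¬ Crossed A T →
  Splits A T (comps (gr A) T)

def StmtStarAvoid : Prop := ∀ (V : Type) [Fintype V] [DecidableEq V] (A : Finset V → Prop)
  (T : Finset V), NC A → Star A → Tight A T → MinT (gr A) T → ¬ Crossed A T →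
  Star (avoid A T)

def StmtStarPiece : Prop := ∀ (V : Type) [Fintype V] [DecidableEq V] (A : Finset V → Prop)
  (T : Finset V), NC A → Star A → Tight A T → MinT (gr A) T → ¬ Crossed A T →
  ∀ C ∈ comps (gr A) T, Star (piece A T C)

def StmtRootAvoid : Prop := ∀ (V : Type) [Fintype V] [DecidableEq V] (A : Finset V → Prop)
  (T : Finset V) (a b : V), NC A → Root A a b → Tight A T → ¬ Crossed A T →
  Root (avoid A T) a b

def StmtRootPiece : Prop := ∀ (V : Type) [Fintype V] [DecidableEq V] (A : Finset V → Prop)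
  (T : Finset V) (a b : V), NC A → Root A a b → Tight A T → ¬ Crossed A T →
  ∀ C ∈ comps (gr A) T, Root (piece A T C) (pproj C a) (pproj C b)

def StmtMuAvoid : Prop := ∀ (V : Type) [Fintype V] [DecidableEq V] (A : Finset V → Prop)
  (T : Finset V), NC A → Tight A T → ¬ Crossed A T →
  mu (avoid A T) ≤ mu A ∧ nf (avoid A T) < nf A

/-! ## 2.3 R1 -/

def StmtExt : Prop := ∀ (V : Type) [Fintype V] [DecidableEq V] (A : Finset V → Prop)
  (u v : V), NC A → 4 ≤ Fintype.card V → ThreeConn (gr A) → (gr A).Adj u v →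
  (∀ T, Tight A T → u ∈ T ∨ v ∈ T) →
  NC (ext A u v) ∧ Root (ext A u v) u v ∧ mu (ext A u v) < mu A

def StmtMerge : Prop := ∀ (V : Type) [Fintype V] [DecidableEq V] (A : Finset V → Prop)
  (u v : V) (huv : u ≠ v), NC A → 4 ≤ Fintype.card V → ThreeConn (gr A) → (gr A).Adj u v →
  (∀ T, Tight A T → u ∈ T ∨ v ∈ T) →
  NC (merge u v (ext A u v)) ∧ Root (merge u v (ext A u v)) ⟨u, huv⟩ ⟨u, huv⟩

/-! ## 3 base cases -/

def StmtBase : Prop := ∀ (V : Type) [Fintype V] [DecidableEq V] (A : Finset V → Prop)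
  (x : ℝ), NC A → Fintype.card V ≤ 3 → 1 < x → x < 2 → 0 < FF A x

/-! ## 4 STAR phase -/

def StmtStarPhase : Prop := ∀ (V : Type) [Fintype V] [DecidableEq V] (A : Finset V → Prop),
  NC A → Star A → 4 ≤ Fintype.card V → (∀ T, Tight A T → MinT (gr A) T → Crossed A T) →
  AllCoupled A →
  ThreeConn (gr A) ∧ ∃ u v, (gr A).Adj u v ∧ ∀ T, Tight A T → u ∈ T ∨ v ∈ T

end Pool.Agent.Chrom
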