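import Pool.Agent.Lib_helper28.Chrom.Main
import Pool.Agent.Lib_helper28.Chrom.NSAll
import Pool.Agent.Lib_helper7.Chrom.Start
import Pool.Agent.Lib_helper19.Chrom.RootMove
import Pool.Agent.Lib_helper39.Chrom.MuAvoid
import Pool.Agent.Lib_helper70.Chrom.StarPhase
import Pool.Agent.Lib_helper93.Chrom.StarMove
import Pool.Agent.Lib_helper75.Chrom.MergeMove

/-!
# MP_fabb84_co: assembly
-/

namespace Pool.Agent.Chrom

theorem final_of (s9 : StmtExt) :
    ∀ (V : Type) [Fintype V] [DecidableEq V] (G : SimpleGraph V) [DecidableRel G.Adj],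
    G.Connected →
    (∀ S : Set V, S.Nonempty → S.Pairwise (fun u v => ¬ G.Adj u v) →
        Nat.card (G.induce Sᶜ).ConnectedComponent ≤ S.ncard) →
    ∀ x : ℝ, 1 < x → x < 2 →
      (∑ A ∈ G.edgeFinset.powerset,
        (-1 : ℝ) ^ A.card *
          x ^ Nat.card (SimpleGraph.fromEdgeSet (A : Set (Sym2 V))).ConnectedComponent) ≠ 0 := by
  refine S12543_of fun V _ _ A hA hS q h1 h2 => ?_
  exact main_pos stmtStarSplits stmtStarAvoid stmtStarPiece stmtRootAvoid stmtRootPiece stmtMuAvoid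
    s9 (stmtMerge s9)
    (fun V _ _ A x h h3 h1 h2 => h.FF_pos_of_card_le_three h3 h1 h2) stmtStarPhase stmtNS h1 h2
    (Fintype.card V) V A rfl ⟨hA, Or.inl hS⟩

end Pool.Agent.Chrom
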