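import Pool.Agent.Lib_helper28.Chrom.Stmt
import Pool.Agent.Lib_helper7.Chrom.SepNC

/-!
# Main induction for MP_fabb84_co (S12543), from the statements in `Stmt.lean`
-/

open Finset

namespace Pool.Agent.Chrom

set_option linter.unusedSectionVars false

/-- membership in the class of note 1214 -/
def Cls {V : Type} [Fintype V] [DecidableEq V] (A : Finset V → Prop) : Prop :=
  NC A ∧ (Star A ∨ ∃ a b, Root A a b)

lemma avoid_ext {V : Type} [Fintype V] [DecidableEq V] {A : Finset V → Prop} (h : NC A) {u v : V}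
    (huv : (gr A).Adj u v) : avoid (ext A u v) {u, v} = A := by
  funext S
  refine propext ⟨?_, fun hS => ⟨Or.inl hS, fun hs => ?_⟩⟩
  · rintro ⟨hS | ⟨hu, hv, -⟩, hs⟩
    · exact hS
    · exact absurd (pair_subset_iff.2 ⟨hu, hv⟩) hs
  · exact huv.2 (h.down _ _ hs hS)

lemma card_piece_lt {V : Type} [Fintype V] [DecidableEq V] {A : Finset V → Prop} {T C : Finset V}
    (hT : Tight A T) (hC : C ∈ comps (gr A) T) :
    Fintype.card (Option {v // v ∈ C}) < Fintype.card V := by
  rw [card_option_coe]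
  have h1 := card_union_of_disjoint (comps_disjoint_S hC)
  have h2 : (C ∪ T).card ≤ Fintype.card V := card_le_univ _
  have h3 := hT.two
  omega

lemma exists_maximal_uncrossed {V : Type} [Fintype V] [DecidableEq V] {A : Finset V → Prop}
    (h : ∃ T, Tight A T ∧ ¬ Crossed A T) :
    ∃ T, Tight A T ∧ ¬ Crossed A T ∧ ∀ T', Tight A T' → T ⊂ T' → Crossed A T' := by
  classical
  obtain ⟨T, hT, hmax⟩ := Finset.exists_maximal (s := univ.filter fun T => Tight A T ∧ ¬ Crossed A T)
    (by obtain ⟨T, hT⟩ := h; exact ⟨T, by simp [hT]⟩)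
  rw [mem_filter] at hT
  refine ⟨T, hT.2.1, hT.2.2, fun T' hT' hss => ?_⟩
  by_contra hc
  have := hmax (show T' ∈ _ by rw [mem_filter]; exact ⟨mem_univ _, hT', hc⟩) hss.subset
  exact hss.not_subset this

/-- positivity of the monochromatic term -/
lemma FM_nonneg {V : Type} [Fintype V] [DecidableEq V] {A : Finset V → Prop} {T : Finset V} {x : ℝ}
    (hx : 0 < x) (hT : Tight A T) (hsp : Splits A T (comps (gr A) T))
    (hpos : ∀ C ∈ comps (gr A) T, 0 < FF (piece A T C) x) : 0 ≤ FM A T x := by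
  have hTne : T.Nonempty := card_pos.1 (by have := hT.two; omega)
  have h1 := FM_product hsp hTne x
  have h2 : (comps (gr A) T).card = T.card := by
    have := hT.zero
    unfold cc kk at this
    omega
  have h3 : ((-1 : ℝ)) ^ ((comps (gr A) T).card + T.card) = 1 := by
    rw [h2]; exact Even.neg_one_pow ⟨_, rfl⟩
  rw [h3, one_mul] at h1
  have h4 : 0 < x * ∏ C ∈ comps (gr A) T, FF (piece A T C) x :=
    mul_pos hx (Finset.prod_pos hpos)
  rw [← h1] at h4
  have h5 : 0 < x ^ (comps (gr A) T).card := pow_pos hx _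
  exact ((mul_pos_iff_of_pos_left h5).1 h4).le

theorem main_pos (s1 : StmtStarSplits) (s2 : StmtStarAvoid) (s3 : StmtStarPiece)
    (s4 : StmtRootAvoid) (s5 : StmtRootPiece) (s6 : StmtMuAvoid) (s9 : StmtExt)
    (s10 : StmtMerge) (s11 : StmtBase)
    (s12 : StmtStarPhase) (s13 : StmtNS) {x : ℝ} (hx1 : 1 < x) (hx2 : x < 2) :
    ∀ (n : ℕ) (V : Type) [Fintype V] [DecidableEq V] (A : Finset V → Prop), Fintype.card V = n →
      Cls A → 0 < FF A x := by
  have hx0 : 0 < x := by linarith
  intro n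
  induction n using Nat.strong_induction_on with
  | _ n ihn =>
  intro V _ _
  have key : ∀ (m k : ℕ) (A : Finset V → Prop), Fintype.card V = n → mu A = m → nf A = k → Cls A →
      0 < FF A x := by
    intro m
    induction m using Nat.strong_induction_on with
    | _ m ihm =>
    intro k
    induction k using Nat.strong_induction_on with
    | _ k ihk =>
    intro A hn hm hk hA
    obtain ⟨hNC, hcls⟩ := hA
    -- the alpha-move
    have alpha : ∀ T, Tight A T → ¬ Crossed A T → Splits A T (comps (gr A) T) →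
        (Star (avoid A T) ∨ ∃ a b, Root (avoid A T) a b) →
        (∀ C ∈ comps (gr A) T, Star (piece A T C) ∨ ∃ a b, Root (piece A T C) a b) →
        0 < FF A x := by
      intro T hT hun hsp h1 h2
      rw [FF_eq_add_FM A T x]
      have hav : 0 < FF (avoid A T) x := by
        obtain ⟨h3, h4⟩ := s6 V A T hNC hT hun
        rcases lt_or_eq_of_le h3 with h5 | h5
        · exact ihm (mu (avoid A T)) (hm ▸ h5) _ (avoid A T) hn rfl rfl ⟨hNC.avoid hT hun, h1⟩
        · exact ihk (nf (avoid A T)) (hk ▸ h4) (avoid A T) hn (h5.trans hm) rfl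
            ⟨hNC.avoid hT hun, h1⟩
      have hfm : 0 ≤ FM A T x := by
        refine FM_nonneg hx0 hT hsp fun C hC => ?_
        exact ihn _ (hn ▸ card_piece_lt hT hC) _ (piece A T C) rfl ⟨hNC.piece hT hun hC, h2 C hC⟩
      linarith
    -- move R1
    have r1 : 4 ≤ Fintype.card V → ThreeConn (gr A) →
        (∃ u v, (gr A).Adj u v ∧ ∀ T, Tight A T → u ∈ T ∨ v ∈ T) → 0 < FF A x := by
      rintro h4 h3c ⟨u, v, huv, ht⟩
      have hne : u ≠ v := huv.ne
      obtain ⟨e1, e2, e3⟩ := s9 V A u v hNC h4 h3c huv ht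
      obtain ⟨g1, g2⟩ := s10 V A u v hne hNC h4 h3c huv ht
      have h := FF_del_contract (ext A u v) hne x
      rw [avoid_ext hNC huv] at h
      rw [h]
      have p1 : 0 < FF (ext A u v) x :=
        ihm (mu (ext A u v)) (hm ▸ e3) _ (ext A u v) hn rfl rfl ⟨e1, Or.inr ⟨u, v, e2⟩⟩
      have p2 : 0 < FF (merge u v (ext A u v)) x := by
        refine ihn (Fintype.card {w : V // w ≠ v}) ?_ _ _ rfl ⟨g1, Or.inr ⟨_, _, g2⟩⟩
        have := card_ne v
        omega
      linarith
    -- base
    by_cases h3 : Fintype.card V ≤ 3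
    · exact s11 V A x hNC h3 hx1 hx2
    have h4 : 4 ≤ Fintype.card V := by omega
    -- coupling-free clique cuts
    by_cases hC : AllCoupled A
    swap
    · unfold AllCoupled at hC
      push Not at hC
      obtain ⟨u, v, hadj, E, hE, hw, hno⟩ := hC
      have hno' : ∀ h, ¬ Coup A u v E h := by
        rintro h ⟨h1, h2, ⟨p, hp, hpE⟩, q, hq, hq1, hq2, hq3⟩
        exact hq3 (hno h ⟨h1, h2⟩ ⟨p, mem_inter.2 ⟨hp, hpE⟩⟩ q hq hq1 hq2)
      have hl := side_left hadj hE
      have hr := side_right hadj hE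
      refine (clSplit hNC hadj hE hno').FF_pos hx1 ?_ ?_
      · refine ihn _ (hn ▸ card_left_lt hw) _ _ rfl ⟨hl.nc hNC, ?_⟩
        rcases hcls with hs | ⟨a, b, hab⟩
        · exact Or.inl (hl.star hNC hs)
        · exact Or.inr ⟨_, _, hl.root hNC hab⟩
      · have hcr : (univ \ E).card < n := by
          rw [← hn]
          obtain ⟨e, he⟩ := comps_nonempty hE
          exact card_lt_univ_of_notMem (x := e) (by simp [he])
        refine ihn _ hcr _ _ (Fintype.card_coe _) ⟨hr.nc hNC, ?_⟩
        rcases hcls with hs | ⟨a, b, hab⟩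
        · exact Or.inl (hr.star hNC hs)
        · exact Or.inr ⟨_, _, hr.root hNC hab⟩
    rcases hcls with hs | ⟨a, b, hr⟩
    · by_cases hun : ∀ T, Tight A T → MinT (gr A) T → Crossed A T
      · obtain ⟨t1, t2⟩ := s12 V A hNC hs h4 hun hC
        exact r1 h4 t1 t2
      · push Not at hun
        obtain ⟨T, hT, hmin, hun⟩ := hun
        exact alpha T hT hun (s1 V A T hNC hs hT hmin hun) (Or.inl (s2 V A T hNC hs hT hmin hun))
          fun C hC => Or.inl (s3 V A T hNC hs hT hmin hun C hC)
    · by_cases hun : ∀ T, Tight A T → Crossed A T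
      · obtain ⟨t1, t2⟩ := s13 V A a b hNC hr h4 hun hC
        exact r1 h4 t1 t2
      · push Not at hun
        obtain ⟨T, hT, hun, hmax⟩ := exists_maximal_uncrossed hun
        exact alpha T hT hun (splits_of_maximal hNC hT hun hmax)
          (Or.inr ⟨a, b, s4 V A T a b hNC hr hT hun⟩)
          fun C hC => Or.inr ⟨_, _, s5 V A T a b hNC hr hT hun C hC⟩
  intro A hn hA
  exact key _ _ A hn rfl rfl hA

end Pool.Agent.Chrom
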