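import Pool.Agent.Lib_helper28.Chrom.Final

/-!
# Positivity for `α`-tough graphs, and the two corollaries

* `pos_of` : `α`-tough, at least two vertices: `(-1)^n χ(G; x) > 0` on `(1, 2)`;
* `comps_le_of_cycle` : a graph with a Hamiltonian cycle is 1-tough;
* `S09967_of`, `S09397_of` : the frozen statements of MP_8989bc_co and MP_6f255c_co.
-/

open Finset

namespace Pool.Agent.Chrom

set_option linter.unusedSectionVars false

theorem cls_pos (s9 : StmtExt) {V : Type} [Fintype V] [DecidableEq V] {A : Finset V → Prop}
    (hA : NC A) (hS : Star A) {q : ℝ} (h1 : 1 < q) (h2 : q < 2) : 0 < FF A q :=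
  main_pos stmtStarSplits stmtStarAvoid stmtStarPiece stmtRootAvoid stmtRootPiece stmtMuAvoid
    s9 (stmtMerge s9)
    (fun V _ _ A x h h3 h1 h2 => h.FF_pos_of_card_le_three h3 h1 h2) stmtStarPhase stmtNS h1 h2
    (Fintype.card V) V A rfl ⟨hA, Or.inl hS⟩

theorem pos_of (s9 : StmtExt) {V : Type} [Fintype V] [DecidableEq V] (G : SimpleGraph V)
    [DecidableRel G.Adj] (hG : G.Connected)
    (hα : ∀ S : Set V, S.Nonempty → S.Pairwise (fun u v => ¬ G.Adj u v) →
        Nat.card (G.induce Sᶜ).ConnectedComponent ≤ S.ncard)
    (hc : 2 ≤ Fintype.card V) (x : ℝ) (h1 : 1 < x) (h2 : x < 2) :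
    0 < (-1 : ℝ) ^ Fintype.card V * (∑ A ∈ G.edgeFinset.powerset,
        (-1 : ℝ) ^ A.card *
          x ^ Nat.card (SimpleGraph.fromEdgeSet (A : Set (Sym2 V))).ConnectedComponent) := by
  rw [edge_expansion G x]
  exact cls_pos s9 (nc_indep hG hα hc) star_indep h1 h2

/-! ### Hamiltonian graphs are tough -/

section ham

variable {V : Type} [Fintype V] [DecidableEq V] {G : SimpleGraph V} {v : V} {p : G.Walk v v}

lemma exists_getVert (hp : p.IsHamiltonianCycle) (w : V) : ∃ i, i ≤ p.length ∧ p.getVert i = w := by
  have h1 := hp.mem_support w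
  rw [SimpleGraph.Walk.mem_support_iff_exists_getVert] at h1
  obtain ⟨i, hi, hi'⟩ := h1
  exact ⟨i, hi', hi⟩

lemma connected_of_ham (hp : p.IsHamiltonianCycle) : G.Connected := by
  have : Nonempty V := ⟨v⟩
  refine ⟨fun a b => ?_⟩
  have h : ∀ w, G.Reachable v w := by
    intro w
    exact ⟨p.takeUntil w (hp.mem_support w)⟩
  exact (h a).symm.trans (h b)

lemma comps_card_le_of_ham (hp : p.IsHamiltonianCycle) {S : Finset V} (hS : S.Nonempty) :
    (comps G S).card ≤ S.card := by
  classical
  have hc : p.IsCycle := hp.isCycle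
  have hex : ∀ C ∈ comps G S, ∃ i, 1 ≤ i ∧ i ≤ p.length ∧ p.getVert (i - 1) ∈ C ∧
      p.getVert i ∈ S := by
    intro C hC
    by_contra hno
    push Not at hno
    have hCS := comps_disjoint_S hC
    have step : ∀ i, i + 1 ≤ p.length → p.getVert i ∈ C → p.getVert (i + 1) ∈ C := by
      intro i hi hiC
      have h1 : p.getVert (i + 1) ∉ S := hno (i + 1) (by omega) hi (by simpa using hiC)
      have h2 : G.Adj (p.getVert i) (p.getVert (i + 1)) := p.adj_getVert_succ (by omega)
      have h3 : p.getVert i ∉ S := Finset.disjoint_left.1 hCS hiC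
      rw [← comp_eq_of_mem_comps hC hiC, mem_comp]
      exact SimpleGraph.Adj.reachable ⟨h2, h3, h1⟩
    have climb : ∀ i, p.getVert i ∈ C → ∀ j, i + j ≤ p.length → p.getVert (i + j) ∈ C := by
      intro i hi j
      induction j with
      | zero => intro _; simpa using hi
      | succ j ih =>
        intro hj
        exact step (i + j) (by omega) (ih (by omega))
    obtain ⟨c, hcC⟩ := comps_nonempty hC
    obtain ⟨i, hi, hic⟩ := exists_getVert hp c
    have hlast : p.getVert p.length ∈ C := by
      have := climb i (by rw [hic]; exact hcC) (p.length - i) (by omega)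
      rwa [show i + (p.length - i) = p.length by omega] at this
    have h0 : p.getVert 0 ∈ C := by
      rw [SimpleGraph.Walk.getVert_zero]
      rwa [SimpleGraph.Walk.getVert_length] at hlast
    obtain ⟨s, hs⟩ := hS
    obtain ⟨j, hj, hjs⟩ := exists_getVert hp s
    have := climb 0 h0 j (by omega)
    rw [zero_add, hjs] at this
    exact Finset.disjoint_left.1 hCS this hs
  choose! f hf using hex
  calc (comps G S).card ≤ ((Finset.Icc 1 p.length).filter fun i => p.getVert i ∈ S).card := by
        refine Finset.card_le_card_of_injOn f ?_ ?_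
        · intro C hC
          obtain ⟨h1, h2, _, h4⟩ := hf C hC
          rw [mem_coe, mem_filter, mem_Icc]
          exact ⟨⟨h1, h2⟩, h4⟩
        · intro C hC D hD hCD
          have h1 := (hf C hC).2.2.1
          have h2 := (hf D hD).2.2.1
          rw [← hCD] at h2
          exact comps_eq_of_mem hC hD h1 h2
    _ ≤ S.card := by
        refine Finset.card_le_card_of_injOn p.getVert ?_ ?_
        · intro i hi
          rw [mem_coe, mem_filter] at hi
          exact hi.2
        · intro i hi j hj hij
          rw [mem_coe, mem_filter, mem_Icc] at hi hj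
          exact hc.getVert_injOn hi.1 hj.1 hij

end ham

/-- frozen statement S09967 (Thomassen's conjecture) -/
theorem S09967_of (s9 : StmtExt) :
    ∀ (V : Type) [Fintype V] [DecidableEq V] (G : SimpleGraph V) [DecidableRel G.Adj],
      (∃ v : V, ∃ p : G.Walk v v, p.IsHamiltonianCycle) →
      ∀ x : ℝ, 1 < x → x < 2 →
        0 < ((-1 : ℝ) ^ Fintype.card V) *
          ∑ S ∈ G.edgeFinset.powerset,
            ((-1 : ℝ) ^ S.card) *
              x ^ Nat.card (SimpleGraph.fromEdgeSet (S : Set (Sym2 V))).ConnectedComponent := by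
  intro V _ _ G _ hham x h1 h2
  obtain ⟨v, p, hp⟩ := hham
  refine pos_of s9 G (connected_of_ham hp) ?_ ?_ x h1 h2
  · intro S hS _
    classical
    have h3 : (S.toFinset : Set V) = S := Set.coe_toFinset S
    have h4 := comps_card_le_of_ham hp (S := S.toFinset) (Set.toFinset_nonempty.2 hS)
    have h5 := kk_eq_card (G := G) (S := S.toFinset)
    unfold kk at h5
    rw [h3] at h5
    rw [← h5, Set.ncard_eq_toFinset_card']
    exact h4
  · have h3 := hp.isCycle.three_le_length
    have h4 : p.getVert 1 ≠ p.getVert 2 := by
      intro h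
      have := hp.isCycle.getVert_injOn (show (1 : ℕ) ∈ {i | 1 ≤ i ∧ i ≤ p.length} from
        ⟨le_refl _, by omega⟩) (show (2 : ℕ) ∈ {i | 1 ≤ i ∧ i ≤ p.length} from
        ⟨by omega, by omega⟩) h
      omega
    have h5 : 1 < Fintype.card V := Fintype.one_lt_card_iff.2 ⟨_, _, h4⟩
    omega

/-- frozen statement S09397 (Dong-Koh) -/
theorem S09397_of (s9 : StmtExt) :
    ∀ (V : Type) [Fintype V] [DecidableEq V] (G : SimpleGraph V) [DecidableRel G.Adj],
      (∀ S : Finset V, S.Nonempty → G.IsIndepSet (S : Set V) →
          Nat.card ((G.induce ((S : Set V)ᶜ)).ConnectedComponent) ≤ S.card) →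
      ∀ q : ℝ, 1 < q → q < 2 →
        (∑ A ∈ G.edgeFinset.powerset,
          (-1 : ℝ) ^ A.card *
            q ^ Nat.card (SimpleGraph.fromEdgeSet (A : Set (Sym2 V))).ConnectedComponent) ≠ 0 := by
  intro V _ _ G _ hα q h1 h2
  classical
  by_cases hG : G.Connected
  · refine final_of s9 V G hG ?_ q h1 h2
    intro S hS hp
    have h3 : (S.toFinset : Set V) = S := Set.coe_toFinset S
    have h4 := hα S.toFinset (Set.toFinset_nonempty.2 hS) (by rw [h3]; exact hp)
    rw [h3] at h4
    rwa [Set.ncard_eq_toFinset_card']
  · have hE : G.edgeFinset = ∅ := by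
      rw [Finset.eq_empty_iff_forall_notMem]
      intro e he
      rw [SimpleGraph.mem_edgeFinset] at he
      induction e using Sym2.ind with
      | _ u v =>
        rw [SimpleGraph.mem_edgeSet] at he
        apply hG
        have hne : Nonempty V := ⟨u⟩
        refine ⟨?_⟩
        have key : ∀ w, w ≠ v → G.Reachable u w := by
          intro w hw
          have h3 := hα {v} (singleton_nonempty v) (by
            rw [coe_singleton]; exact Set.pairwise_singleton _ _)
          have h5 := kk_eq_card (G := G) (S := ({v} : Finset V))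
          rw [← h5, card_singleton] at h3
          have hu : u ∉ ({v} : Finset V) := by rw [mem_singleton]; exact he.ne
          have hw' : w ∉ ({v} : Finset V) := by rw [mem_singleton]; exact hw
          have h6 := card_le_one.1 h3 _ (comp_mem_comps (G := G) hu) _ (comp_mem_comps (G := G) hw')
          have h7 : w ∈ comp G {v} u := by rw [h6]; exact self_mem_comp w
          rw [mem_comp] at h7
          have hle : del G {v} ≤ G := fun a b hab => hab.1
          exact h7.mono hle
        have key' : ∀ w, G.Reachable u w := by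
          intro w
          by_cases hw : w = v
          · rw [hw]; exact he.reachable
          · exact key w hw
        exact fun a b => (key' a).symm.trans (key' b)
    rw [hE]
    simp only [powerset_empty, sum_singleton, card_empty, pow_zero, one_mul]
    exact pow_ne_zero _ (by linarith)

end Pool.Agent.Chrom
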